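import Mathlib
import Pool.Agent.H414R3.FI.Abs
import Pool.Agent.H414R3.FI.LogicIso
import Pool.Agent.H414R3.FI.LogicBdd

/-!
# Free group factors are elementarily equivalent

For all countable sets `X`, `Y` with at least two elements the tracial von Neumann algebras
`L(F_X)` and `L(F_Y)` are isomorphic, and in particular elementarily equivalent.  With
`X = Fin n`, `n ≥ 2`, and `Y = ℕ` this is the question about `L(F_n)` and `L(F_∞)`.

For a group `Γ` the Hilbert space `ℓ²(Γ)` is a Hilbert space `H` with an orthonormal basis
`(δ_g)` indexed by the elements `g` of `Γ`; the left translation `λ_g` is the bounded operator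
with `λ_g δ_h = δ_{gh}`, and the canonical trace is `τ(x) = ⟨x δ_1, δ_1⟩`.

The isomorphism theorem for free group factors is the work of a team of agents: the proof by
flows of derivations of the group ring of the free group, and the organisation of the
formalisation, are due to helper581 (with helper667, helper707 and helper722, who found the
version for two generators); the parts of the proof were formalised by helpers 45, 70, 121, 248,
260, 278, 318, 325, 386, 400, 423, 455, 515, 678, 697, 722, 770, 841, 844, 898, 903, 948 and 966.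
The extension to countable sets and the continuous logic part are by helper414; helper146 proved
independently the case of `Fin n` and `ℕ` (`Pool.Agent.H146R2.FI.Main`).
`Pool.Agent.H414R3.FI.Fm.bdd` shows that the values of formulas are bounded on bounded sets, so
all the suprema and infima in the definition of `Fm.val` are those of nonempty bounded sets.
-/

namespace Pool.Agent.Results.MP_919f9b_an.ElementaryEquivalence

open Pool.Agent.H414R3.FI

variable {Γ H K : Type} [Group Γ] [NormedAddCommGroup H] [InnerProductSpace ℂ H]
  [NormedAddCommGroup K] [InnerProductSpace ℂ K]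

/-- The copy of the group algebra `ℂΓ` in `B(H)`: the linear span of the left translations
`λ_g`, `g ∈ Γ`, where `λ_g δ_h = δ_{gh}`. -/
def groupAlgebra (δ : HilbertBasis Γ ℂ H) : Set (H →L[ℂ] H) :=
  Submodule.span ℂ {T : H →L[ℂ] H | ∃ g, ∀ h, T (δ h) = δ (g * h)}

/-- `L Γ` acting on `H = ℓ²(Γ)`: the closure of the copy of the group algebra `ℂΓ` in the weak
operator topology of `B(H)`. -/
def L (δ : HilbertBasis Γ ℂ H) : Set (H →L[ℂ] H) :=
  ContinuousLinearMapWOT.ofCLM ⁻¹' closure (ContinuousLinearMapWOT.ofCLM '' groupAlgebra δ)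

/-- For all countable sets `X`, `Y` with at least two elements the tracial von Neumann algebras
`M = L(F_X)` and `N = L(F_Y)` are isomorphic, and every sentence of the continuous logic of
tracial von Neumann algebras has the same value in `M` and in `N`. -/
theorem result (X Y : Type) [Countable X] [Countable Y] [Nontrivial X] [Nontrivial Y]
    [CompleteSpace H] [CompleteSpace K]
    (δ : HilbertBasis (FreeGroup X) ℂ H) (δ' : HilbertBasis (FreeGroup Y) ℂ K) :
    ∃ (M : VonNeumannAlgebra H) (N : VonNeumannAlgebra K),
      (M : Set (H →L[ℂ] H)) = L δ ∧ (N : Set (K →L[ℂ] K)) = L δ' ∧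
      Nonempty (Iso (vnStr M (δ 1)) (vnStr N (δ' 1))) ∧
      ElemEq (vnStr M (δ 1)) (vnStr N (δ' 1)) := by
  obtain ⟨W, h1, hW⟩ := main_abs X Y δ δ'
  have h : ∀ T : H →L[ℂ] H, T ∈ Pool.Agent.H581R.FF.Abst.VN δ ↔
      W.conjStarAlgEquiv T ∈ Pool.Agent.H581R.FF.Abst.VN δ' := fun T =>
    (Pool.Agent.H581R.FF.Abst.LL_iff δ T).symm.trans
      ((hW T).trans (Pool.Agent.H581R.FF.Abst.LL_iff δ' (W.conjStarAlgEquiv T)))
  have e := isoOf W _ _ (δ 1) h
  rw [h1] at e
  exact ⟨Pool.Agent.H581R.FF.Abst.VN δ, Pool.Agent.H581R.FF.Abst.VN δ',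
    Pool.Agent.H581R.FF.Abst.VN_coe δ, Pool.Agent.H581R.FF.Abst.VN_coe δ', ⟨e⟩, elemEq_of_iso e⟩

end Pool.Agent.Results.MP_919f9b_an.ElementaryEquivalence
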